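import Pool.Agent.Run7.h356.Comp

set_option autoImplicit false

namespace Pool.Agent.Results.MP_2a1ef3_lc.HilbertTenRationals

/-- Fix a shape of polynomial equation over the rationals: `r` monomials of degree at most `d` in `m`
unknowns, with exponents `E`. For every `n ≥ 6 r (d + 1) + 3 m + 15` there is a fixed finite list
`S₀` of linear subsets of `ℕ ^ n` such that the problem whether the equation of that shape with
given integer coefficients has a rational solution is many-one reducible to the problem whether the
bounded language of the semilinear set `S₀ ∪ L(0, P)` is context-free, `P` being given. -/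
theorem result (m r d n : ℕ) (hn : 6 * r * (d + 1) + 3 * m + 15 ≤ n)
    (E : Fin r → Fin m → ℕ) (hE : ∀ i, ∑ j, E i j ≤ d) :
    ∃ S₀ : List ((Fin n → ℕ) × List (Fin n → ℕ)),
      ManyOneReducible
        (fun c : Fin r → ℤ => ∃ x : Fin m → ℚ, ∑ i, (c i : ℚ) * ∏ j, x j ^ E i j = 0)
        (fun P : List (Fin n → ℕ) =>
          Language.IsContextFree
            ((setOf (fun w : List (Fin n) =>
                ∃ k : Fin n → ℕ,
                  (∃ p ∈ S₀ ++ [(0, P)], ∃ c : Fin p.2.length → ℕ,
                      k = p.1 + ∑ i, c i • p.2.get i) ∧
                  w = (List.ofFn (fun i : Fin n => List.replicate (k i) i)).flatten))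
              : Language (Fin n))) := by
  obtain ⟨S₀, f, hf, h⟩ := Run7.h356.main m r d n hn E hE
  exact ⟨S₀, f, hf.to_comp, h⟩

end Pool.Agent.Results.MP_2a1ef3_lc.HilbertTenRationals
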